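import Mathlib
import Pool.Agent.V11310.CL.Neg

set_option autoImplicit false

/-!
# Prime divisors violating the conjecture: no multiple is in the closure of the known classes

Let `C` be a prime divisor on the blow-up of the complex projective plane at `n ≥ 4` very general
points, of class `d H - ∑ w i E i`, with `C ^ 2 ≤ -2`, or with `C ^ 2 = -1` and genus `g ≥ 1`. Then NO
multiple `(t d; t w)`, `t ≥ 1`, of its class is reached or carried by finitely many reflections to a
standard class which is reached. Every prime divisor with `C ^ 2 < 0` which is not of this kind has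
`C ^ 2 = K C = -1`.

`Reached N0 d w` (`Pool.Agent.V11310.CL.Reached`): the multiset of the multiplicities `w` belongs, in
degree `d`, to the smallest class of multisets of multiplicities with one of the two signs (no curves,
independent conditions) which contains the comparable, the large and the good classes (`Base`) and is
closed under collisions (a point of multiplicity `μ` may be replaced by points `M'` if `M'` is in the
class in degree `μ - 1`), quadratic transformations, doubling (four points of multiplicity `m` for one
point of the multiplicities `2 m` and `2 m + 1`), adding or removing points and changing the degree.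
-/

namespace Pool.Agent.Results.MP_3c83d0_ag.ViolationsNotReached

open MvPolynomial Pool.Agent.TH167.SHDefs
open Pool.Agent.V11310.CL (Base Reached Covered multiples canonical_pos reached_of_base)

theorem result : ∃ N0 : ℕ,
    (∀ (n d : ℕ) (w : Fin n → ℕ), Base N0 d w → Reached N0 d w) ∧
    ∀ n : ℕ, 4 ≤ n →
    ∃ Z : ℕ → MvPolynomial (Fin n × Fin 2) ℂ, (∀ k, Z k ≠ 0) ∧
      ∀ P : Fin n → Fin 2 → ℂ,
        (∀ k, MvPolynomial.eval (fun ij : Fin n × Fin 2 => P ij.1 ij.2) (Z k) ≠ 0) →
        ∀ (d : ℕ) (w : Fin n → ℕ) (C : MvPolynomial (Fin 3) ℂ), Curve P C d w →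
          inter d w d w < 0 →
          (inter d w d w = -1 ∧ interK d w = -1) ∨
            (0 < interK d w ∧ ∀ t : ℕ, 1 ≤ t → ¬ Covered N0 (t * d) (fun i => t * w i)) := by
  obtain ⟨N0, hN0⟩ := Pool.Agent.Y939.NC.reg_exp
  refine ⟨N0, fun n d w => reached_of_base, fun n hn => ?_⟩
  obtain ⟨Z, hZ, h⟩ := Pool.Agent.TH167.SH.exists_fam (Fin n × Fin 2)
  refine ⟨Z, hZ, fun P hP0 => ?_⟩
  have hP := (h _).1 hP0
  intro d w C hC h0
  by_cases hne : MinusOne P C d w
  · exact Or.inl ⟨hne.self, hne.canonical⟩
  · have hK := canonical_pos hn hP hC h0 hne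
    exact Or.inr ⟨hK, fun t ht => multiples hN0 hn hP hC h0.le hK ht⟩

end Pool.Agent.Results.MP_3c83d0_ag.ViolationsNotReached
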